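import Pool.Agent.Lib.MP_f90f6c_an.H35Rel

/-!
Q1 for the radius of comparison relative to any invariant positive element. For an action of a
finite group with the weak tracial Rokhlin property on an infinite-dimensional simple unital
C⋆-algebra `A` and a nonzero positive `e` in `M_k(A^α)`, the radius of comparison relative to `e`
is the same in `A^α` and in `A`, and is divided by `card G` in `C⋆(G, A, α)`.
The case `k = 1`, `e = 1` is Q1 (theorem `q1` below).
-/

namespace Pool.Agent.Results.MP_f90f6c_an.Relative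

open Pool.Agent.Lib.MP_f90f6c_an.H50
open scoped ENNReal

theorem result {G : Type*} [Group G] [Fintype G] [DecidableEq G]
    {A : Type*} [CStarAlgebra A] [PartialOrder A] [StarOrderedRing A]
    (α : G →* (A ≃⋆ₐ[ℂ] A)) (hsimple : IsSimple A) (hinf : ¬FiniteDimensional ℂ A)
    (hα : WeakTracialRokhlin α) {k : ℕ} (e : Mn (fixedAlg α) k) (he : 0 ≤ e) (he0 : e ≠ 0) :
    rcRel e = rcRel (e.map fun x => (x : A)) ∧
      rcRel (e.map fun x => piC α x) =
        (Fintype.card G : ℝ≥0∞)⁻¹ * rcRel (e.map fun x => (x : A)) :=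
  rcRel_eq hsimple hinf hα he he0

/-- The case `k = 1`, `e = 1`: the two equalities of Q1. -/
theorem q1 {G : Type*} [Group G] [Fintype G] [DecidableEq G]
    {A : Type*} [CStarAlgebra A] [PartialOrder A] [StarOrderedRing A]
    (α : G →* (A ≃⋆ₐ[ℂ] A)) (hsimple : IsSimple A) (hinf : ¬FiniteDimensional ℂ A)
    (hα : WeakTracialRokhlin α) :
    rc (fixedAlg α) = rc A ∧ rc (crossed α) = (Fintype.card G : ℝ≥0∞)⁻¹ * rc A := by
  have := hsimple.1
  have h := result α hsimple hinf hα (k := 1) 1 zero_le_one one_ne_zero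
  have e1 : ((1 : Mn (fixedAlg α) 1).map fun x => (x : A)) = (1 : Mn A 1) := by
    ext i j
    rw [Subsingleton.elim j i]
    exact congrArg Subtype.val (Matrix.one_apply_eq i) |>.trans (Matrix.one_apply_eq i).symm
  have e2 : ((1 : Mn (fixedAlg α) 1).map fun x => piC α x) = (1 : Mn (crossed α) 1) := by
    ext i j : 1
    rw [Subsingleton.elim j i]
    exact (congrArg (fun x : fixedAlg α => piD α x) (Matrix.one_apply_eq i)).trans
      ((map_one (piD α)).trans (Matrix.one_apply_eq i).symm)
  rwa [e1, e2, rcRel_one, rcRel_one, rcRel_one] at h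

end Pool.Agent.Results.MP_f90f6c_an.Relative
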